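import Pool.Agent.Helper529.Wf.Defs

set_option autoImplicit false

open Set Metric Filter Topology MeasureTheory
open scoped Manifold ComplexConjugate NNReal
open Pool.Agent.Helper240.Nev Pool.Agent.Helper684.Ergo

namespace Pool.Agent.Helper529.Wf



theorem e1_path {E : Type*} [NormedAddCommGroup E] [NormedSpace ℂ E] {φ : ℂ → E} {φ' : E}
    {t : ℂ} {s : ℝ} (h : HasDerivAt φ φ' ((s : ℂ) * t)) :
    HasDerivAt (fun s : ℝ => φ ((s : ℂ) * t)) (t • φ') s := by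
  have h1 : HasDerivAt (fun s : ℝ => (s : ℂ) * t) t s := by
    have := (Complex.ofRealCLM.hasDerivAt (x := s)).mul_const t
    simpa using this
  exact HasDerivAt.scomp (𝕜 := ℝ) (𝕜' := ℂ) s h h1

theorem e1_mem {ρ : ℝ} {t : ℂ} (ht : t ∈ ball (0 : ℂ) ρ) {s : ℝ} (hs : s ∈ Icc (0 : ℝ) 1) :
    (s : ℂ) * t ∈ ball (0 : ℂ) ρ := by
  rw [mem_ball_zero_iff] at ht ⊢
  rw [norm_mul, Complex.norm_real, Real.norm_eq_abs, abs_of_nonneg hs.1]
  calc s * ‖t‖ ≤ 1 * ‖t‖ := mul_le_mul_of_nonneg_right hs.2 (norm_nonneg _)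
    _ = ‖t‖ := one_mul _
    _ < ρ := ht

/-- the bound for the iterates -/
noncomputable def e1_b (c L A s : ℝ) : ℝ := (c + A / L) * Real.exp (L * s) - A / L

/-- good approximate integral curves -/
def e1_Good {E : Type*} [NormedAddCommGroup E] [NormedSpace ℂ E] (p y₀ : E) (L A ρ : ℝ)
    (φ : ℂ → E) : Prop :=
  φ 0 = y₀ ∧ DifferentiableOn ℂ φ (ball 0 ρ) ∧
    ∀ t ∈ ball (0 : ℂ) ρ, ‖φ t - p‖ ≤ e1_b ‖y₀ - p‖ L A ‖t‖

theorem e1_b_mono {c L A : ℝ} (hc : 0 ≤ c) (hL : 0 < L) (hA : 0 ≤ A) {s t : ℝ} (h : s ≤ t) :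
    e1_b c L A s ≤ e1_b c L A t := by
  unfold e1_b
  have h1 : Real.exp (L * s) ≤ Real.exp (L * t) := Real.exp_le_exp.2 (by nlinarith)
  have h2 : 0 ≤ c + A / L := by positivity
  have := mul_le_mul_of_nonneg_left h1 h2
  linarith

theorem e1_good_mem {E : Type*} [NormedAddCommGroup E] [NormedSpace ℂ E] {p y₀ : E} {L A ρ R : ℝ}
    (hL : 0 < L) (hA : 0 ≤ A)
    (hy : (‖y₀ - p‖ + A / L) * Real.exp (L * ρ) - A / L < R) {v : E} {t : ℂ}
    (ht : t ∈ ball (0 : ℂ) ρ) (h : ‖v - p‖ ≤ e1_b ‖y₀ - p‖ L A ‖t‖) : v ∈ ball p R := by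
  rw [mem_ball_iff_norm]
  rw [mem_ball_zero_iff] at ht
  have h1 := e1_b_mono (c := ‖y₀ - p‖) (norm_nonneg _) hL hA ht.le
  unfold e1_b at h1 h
  linarith

theorem e1_step {E : Type*} [NormedAddCommGroup E] [NormedSpace ℂ E] [CompleteSpace E]
    {Z : E → E} {p : E} {R : ℝ} (hR : 0 < R) (hZ : DifferentiableOn ℂ Z (ball p R)) {L A : ℝ}
    (hL : 0 < L) (hA : 0 ≤ A)
    (hLip : ∀ x ∈ ball p R, ∀ y ∈ ball p R, ‖Z x - Z y‖ ≤ L * ‖x - y‖) (hZp : ‖Z p‖ ≤ A)
    {y₀ : E} {ρ : ℝ}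
    (hy : (‖y₀ - p‖ + A / L) * Real.exp (L * ρ) - A / L < R) (φ : ℂ → E)
    (hφ : e1_Good p y₀ L A ρ φ) :
    ∃ φ' : ℂ → E, e1_Good p y₀ L A ρ φ' ∧ ∀ t ∈ ball (0 : ℂ) ρ, HasDerivAt φ' (Z (φ t)) t := by
  obtain ⟨h0, hd, hb⟩ := hφ
  have hmaps : MapsTo φ (ball 0 ρ) (ball p R) := fun t ht => e1_good_mem hL hA hy ht (hb t ht)
  have hcomp : DifferentiableOn ℂ (fun t => Z (φ t)) (ball 0 ρ) := hZ.comp hd hmaps
  obtain ⟨φ', hφ0, hφd⟩ := (hcomp.isExactOn_ball).with_val_at 0 y₀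
  refine ⟨φ', ⟨hφ0, fun t ht => (hφd t ht).differentiableAt.differentiableWithinAt, ?_⟩, hφd⟩
  intro t ht
  have hder : ∀ s ∈ Icc (0 : ℝ) 1, HasDerivAt (fun s : ℝ => φ' ((s : ℂ) * t) - p)
      (t • Z (φ ((s : ℂ) * t))) s := fun s hs =>
    (e1_path (hφd _ (e1_mem ht hs))).sub_const p
  have hBder : ∀ s : ℝ, HasDerivAt (fun s : ℝ => e1_b ‖y₀ - p‖ L A (s * ‖t‖))
      ((‖y₀ - p‖ + A / L) * (Real.exp (L * (s * ‖t‖)) * (L * ‖t‖))) s := by
    intro s
    unfold e1_b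
    have h1 : HasDerivAt (fun s : ℝ => L * (s * ‖t‖)) (L * ‖t‖) s := by
      have := ((hasDerivAt_id s).mul_const ‖t‖).const_mul L
      simpa using this
    exact ((h1.exp).const_mul _).sub_const _
  have key := image_norm_le_of_norm_deriv_right_le_deriv_boundary (a := (0 : ℝ)) (b := 1)
    (f := fun s : ℝ => φ' ((s : ℂ) * t) - p) (f' := fun s : ℝ => t • Z (φ ((s : ℂ) * t)))
    (fun s hs => (hder s hs).continuousAt.continuousWithinAt)
    (fun s hs => (hder s (Ico_subset_Icc_self hs)).hasDerivWithinAt)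
    (B := fun s : ℝ => e1_b ‖y₀ - p‖ L A (s * ‖t‖))
    (B' := fun s : ℝ => (‖y₀ - p‖ + A / L) * (Real.exp (L * (s * ‖t‖)) * (L * ‖t‖)))
    (by
      simp only [Complex.ofReal_zero, zero_mul, hφ0]
      unfold e1_b
      simp)
    hBder
    (by
      intro s hs
      have hs' := Ico_subset_Icc_self hs
      have hmem := e1_mem ht hs'
      have hz := hb _ hmem
      have hzm := hmaps hmem
      have hn : ‖(s : ℂ) * t‖ = s * ‖t‖ := by
        rw [norm_mul, Complex.norm_real, Real.norm_eq_abs, abs_of_nonneg hs'.1]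
      rw [hn] at hz
      have h1 : ‖Z (φ ((s : ℂ) * t))‖ ≤ A + L * e1_b ‖y₀ - p‖ L A (s * ‖t‖) := by
        calc ‖Z (φ ((s : ℂ) * t))‖ = ‖Z p + (Z (φ ((s : ℂ) * t)) - Z p)‖ := by
              rw [add_sub_cancel]
          _ ≤ ‖Z p‖ + ‖Z (φ ((s : ℂ) * t)) - Z p‖ := norm_add_le _ _
          _ ≤ A + L * ‖φ ((s : ℂ) * t) - p‖ :=
              add_le_add hZp (hLip _ hzm _ (mem_ball_self hR))
          _ ≤ _ := by
              have := mul_le_mul_of_nonneg_left hz hL.le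
              linarith
      rw [norm_smul]
      calc ‖t‖ * ‖Z (φ ((s : ℂ) * t))‖ ≤ ‖t‖ * (A + L * e1_b ‖y₀ - p‖ L A (s * ‖t‖)) :=
            mul_le_mul_of_nonneg_left h1 (norm_nonneg _)
        _ = _ := by
            unfold e1_b
            field_simp
            ring)
  have := key (right_mem_Icc.2 zero_le_one)
  simpa using this

/-- A holomorphic vector field has holomorphic integral curves on large discs when it is small. -/
theorem exists_flow_disc {E : Type*} [NormedAddCommGroup E] [NormedSpace ℂ E] [CompleteSpace E]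
    {Z : E → E} {p : E} {R : ℝ} (hR : 0 < R) (hZ : DifferentiableOn ℂ Z (ball p R)) {L A : ℝ}
    (hL : 0 < L) (hA : 0 ≤ A)
    (hLip : ∀ x ∈ ball p R, ∀ y ∈ ball p R, ‖Z x - Z y‖ ≤ L * ‖x - y‖) (hZp : ‖Z p‖ ≤ A)
    {y₀ : E} {ρ : ℝ} (hρ : 0 < ρ)
    (hy : (‖y₀ - p‖ + A / L) * Real.exp (L * ρ) - A / L < R) :
    ∃ ψ : ℂ → E, ψ 0 = y₀ ∧ ∀ t ∈ ball (0 : ℂ) ρ, HasDerivAt ψ (Z (ψ t)) t ∧ ψ t ∈ ball p R := by
  have hbase : e1_Good p y₀ L A ρ (fun _ => y₀) := by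
    refine ⟨rfl, differentiableOn_const _, ?_⟩
    intro t _
    have h1 := e1_b_mono (c := ‖y₀ - p‖) (norm_nonneg _) hL hA (norm_nonneg t)
    have h2 : e1_b ‖y₀ - p‖ L A 0 = ‖y₀ - p‖ := by
      unfold e1_b
      simp
    rw [h2] at h1
    exact h1
  choose! next hnext hnextd using
    (fun φ (hφ : e1_Good p y₀ L A ρ φ) => e1_step hR hZ hL hA hLip hZp hy φ hφ)
  let ψ : ℕ → ℂ → E := fun n => Nat.rec (fun _ => y₀) (fun _ φ => next φ) n
  have hψs : ∀ n, ψ (n + 1) = next (ψ n) := fun n => rfl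
  have hgood : ∀ n, e1_Good p y₀ L A ρ (ψ n) := by
    intro n
    induction n with
    | zero => exact hbase
    | succ n ih => rw [hψs]; exact hnext _ ih
  have hder : ∀ n, ∀ t ∈ ball (0 : ℂ) ρ, HasDerivAt (ψ (n + 1)) (Z (ψ n t)) t := by
    intro n
    rw [hψs]
    exact hnextd _ (hgood n)
  have hmem : ∀ n, ∀ t ∈ ball (0 : ℂ) ρ, ψ n t ∈ ball p R := fun n t ht =>
    e1_good_mem hL hA hy ht ((hgood n).2.2 t ht)
  have hdiff : ∀ n, ∀ t ∈ ball (0 : ℂ) ρ,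
      ‖ψ (n + 1) t - ψ n t‖ ≤ (2 * R) * ((L * ‖t‖) ^ n / (n.factorial : ℝ)) := by
    intro n
    induction n with
    | zero =>
      intro t ht
      have h1 := hmem 1 t ht
      have h2 := hmem 0 t ht
      rw [mem_ball_iff_norm] at h1 h2
      have h3 : ψ (0 + 1) t - ψ 0 t = (ψ 1 t - p) - (ψ 0 t - p) := by simp
      rw [h3]
      simp only [pow_zero, Nat.factorial_zero, Nat.cast_one, div_one, mul_one]
      have := norm_sub_le (ψ 1 t - p) (ψ 0 t - p)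
      linarith
    | succ n ih =>
      intro t ht
      have hd : ∀ s ∈ Icc (0 : ℝ) 1,
          HasDerivAt (fun s : ℝ => ψ (n + 1 + 1) ((s : ℂ) * t) - ψ (n + 1) ((s : ℂ) * t))
          (t • Z (ψ (n + 1) ((s : ℂ) * t)) - t • Z (ψ n ((s : ℂ) * t))) s := fun s hs =>
        (e1_path (hder (n + 1) _ (e1_mem ht hs))).sub (e1_path (hder n _ (e1_mem ht hs)))
      have hfac : (0 : ℝ) < (n.factorial : ℝ) := by exact_mod_cast n.factorial_pos
      have hBd : ∀ s : ℝ, HasDerivAt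
          (fun s : ℝ => (2 * R) * ((L * (s * ‖t‖)) ^ (n + 1) / ((n + 1).factorial : ℝ)))
          ((2 * R) * (((n + 1 : ℕ) : ℝ) * (L * (s * ‖t‖)) ^ n * (L * ‖t‖) /
            ((n + 1).factorial : ℝ))) s := by
        intro s
        have h1 : HasDerivAt (fun s : ℝ => L * (s * ‖t‖)) (L * ‖t‖) s := by
          have := ((hasDerivAt_id s).mul_const ‖t‖).const_mul L
          simpa using this
        have h2 := (((h1.pow (n + 1)).div_const ((n + 1).factorial : ℝ)).const_mul (2 * R))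
        simpa using h2
      have key := image_norm_le_of_norm_deriv_right_le_deriv_boundary (a := (0 : ℝ)) (b := 1)
        (f := fun s : ℝ => ψ (n + 1 + 1) ((s : ℂ) * t) - ψ (n + 1) ((s : ℂ) * t))
        (f' := fun s : ℝ => t • Z (ψ (n + 1) ((s : ℂ) * t)) - t • Z (ψ n ((s : ℂ) * t)))
        (fun s hs => (hd s hs).continuousAt.continuousWithinAt)
        (fun s hs => (hd s (Ico_subset_Icc_self hs)).hasDerivWithinAt)
        (B := fun s : ℝ => (2 * R) * ((L * (s * ‖t‖)) ^ (n + 1) / ((n + 1).factorial : ℝ)))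
        (B' := fun s : ℝ => (2 * R) * (((n + 1 : ℕ) : ℝ) * (L * (s * ‖t‖)) ^ n * (L * ‖t‖) /
            ((n + 1).factorial : ℝ)))
        (by
          simp only [Complex.ofReal_zero, zero_mul, mul_zero]
          rw [(hgood (n + 1 + 1)).1, (hgood (n + 1)).1, sub_self, norm_zero]
          simp)
        hBd
        (by
          intro s hs
          have hs' := Ico_subset_Icc_self hs
          have hm := e1_mem ht hs'
          have hn : ‖(s : ℂ) * t‖ = s * ‖t‖ := by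
            rw [norm_mul, Complex.norm_real, Real.norm_eq_abs, abs_of_nonneg hs'.1]
          have hi := ih _ hm
          rw [hn] at hi
          have hl := hLip _ (hmem (n + 1) _ hm) _ (hmem n _ hm)
          rw [← smul_sub, norm_smul]
          calc ‖t‖ * ‖Z (ψ (n + 1) ((s : ℂ) * t)) - Z (ψ n ((s : ℂ) * t))‖
              ≤ ‖t‖ * (L * ((2 * R) * ((L * (s * ‖t‖)) ^ n / (n.factorial : ℝ)))) := by
                apply mul_le_mul_of_nonneg_left _ (norm_nonneg _)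
                exact hl.trans (mul_le_mul_of_nonneg_left hi hL.le)
            _ = _ := by
                rw [Nat.factorial_succ]
                push_cast
                field_simp)
      have := key (right_mem_Icc.2 zero_le_one)
      simpa using this
  have hsum : Summable (fun n : ℕ => (2 * R) * ((L * ρ) ^ n / (n.factorial : ℝ))) :=
    (Real.summable_pow_div_factorial (L * ρ)).mul_left _
  have hu : ∀ n, ∀ t ∈ ball (0 : ℂ) ρ, ‖ψ (n + 1) t - ψ n t‖ ≤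
      (2 * R) * ((L * ρ) ^ n / (n.factorial : ℝ)) := by
    intro n t ht
    refine (hdiff n t ht).trans ?_
    rw [mem_ball_zero_iff] at ht
    gcongr
  have hunif := tendstoUniformlyOn_tsum_nat hsum hu
  set Ψ : ℂ → E := fun t => y₀ + ∑' n, (ψ (n + 1) t - ψ n t) with hΨ
  have hunif2 : TendstoUniformlyOn ψ Ψ atTop (ball (0 : ℂ) ρ) := by
    rw [Metric.tendstoUniformlyOn_iff] at hunif ⊢
    intro ε hε
    filter_upwards [hunif ε hε] with n hn t ht
    have h1 := hn t ht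
    rw [Finset.sum_range_sub (fun n => ψ n t)] at h1
    have h2 : Ψ t = y₀ + ∑' n, (ψ (n + 1) t - ψ n t) := rfl
    have h3 : ψ 0 t = y₀ := rfl
    rw [h3] at h1
    rw [h2, dist_eq_norm] at *
    have h4 : y₀ + ∑' n, (ψ (n + 1) t - ψ n t) - ψ n t =
        ∑' n, (ψ (n + 1) t - ψ n t) - (ψ n t - y₀) := by abel
    rw [h4]
    exact h1
  have hlim : ∀ t ∈ ball (0 : ℂ) ρ, Tendsto (fun n => ψ n t) atTop (𝓝 (Ψ t)) := fun t ht =>
    hunif2.tendsto_at ht
  have hΨmem : ∀ t ∈ ball (0 : ℂ) ρ, Ψ t ∈ ball p R := by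
    intro t ht
    apply e1_good_mem (y₀ := y₀) hL hA hy ht
    have h1 : Tendsto (fun n => ‖ψ n t - p‖) atTop (𝓝 ‖Ψ t - p‖) :=
      ((hlim t ht).sub_const p).norm
    exact le_of_tendsto h1 (Filter.Eventually.of_forall fun n => (hgood n).2.2 t ht)
  refine ⟨Ψ, ?_, fun t ht => ⟨?_, hΨmem t ht⟩⟩
  · have h1 : ∀ n, ψ (n + 1) 0 - ψ n 0 = 0 := by
      intro n
      rw [(hgood (n + 1)).1, (hgood n).1, sub_self]
    simp only [hΨ, h1, tsum_zero, add_zero]
  · have hunif3 : TendstoUniformlyOn (fun n t => Z (ψ n t)) (fun t => Z (Ψ t)) atTop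
        (ball (0 : ℂ) ρ) := by
      rw [Metric.tendstoUniformlyOn_iff] at hunif2 ⊢
      intro ε hε
      filter_upwards [hunif2 (ε / L) (div_pos hε hL)] with n hn t ht
      have h1 := hn t ht
      rw [dist_eq_norm] at h1 ⊢
      have h2 := hLip _ (hΨmem t ht) _ (hmem n t ht)
      rw [lt_div_iff₀ hL] at h1
      linarith
    exact hasDerivAt_of_tendstoUniformlyOn (f := fun n => ψ (n + 1)) isOpen_ball hunif3
      (Filter.Eventually.of_forall fun n x hx => hder n x hx)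
      (fun x hx => (tendsto_add_atTop_iff_nat 1).2 (hlim x hx)) ht

/-- Integral curves do not reach the zeros of the vector field. -/
theorem flow_ne_zero {E : Type*} [NormedAddCommGroup E] [NormedSpace ℂ E]
    {Z : E → E} {p : E} {R : ℝ} {L : ℝ} (hL : 0 < L)
    (hLip : ∀ x ∈ ball p R, ∀ y ∈ ball p R, ‖Z x - Z y‖ ≤ L * ‖x - y‖) {ρ : ℝ}
    {ψ : ℂ → E} (hψ : ∀ t ∈ ball (0 : ℂ) ρ, HasDerivAt ψ (Z (ψ t)) t ∧ ψ t ∈ ball p R)
    (h0 : Z (ψ 0) ≠ 0) : ∀ t ∈ ball (0 : ℂ) ρ, Z (ψ t) ≠ 0 := by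
  intro t ht hcon
  have hmem : ∀ s ∈ Icc (0 : ℝ) 1, ((1 - s : ℝ) : ℂ) * t ∈ ball (0 : ℂ) ρ := fun s hs =>
    e1_mem ht ⟨by linarith [hs.2], by linarith [hs.1]⟩
  have hder : ∀ s ∈ Icc (0 : ℝ) 1, HasDerivAt (fun s : ℝ => ψ (((1 - s : ℝ) : ℂ) * t) - ψ t)
      ((-1 : ℝ) • (t • Z (ψ (((1 - s : ℝ) : ℂ) * t)))) s := by
    intro s hs
    have h1 := e1_path (hψ _ (hmem s hs)).1
    have h2 : HasDerivAt (fun s : ℝ => 1 - s) (-1) s := by
      simpa using (hasDerivAt_id s).const_sub 1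
    exact (HasDerivAt.scomp (𝕜 := ℝ) (𝕜' := ℝ) s h1 h2).sub_const _
  have key := eq_zero_of_abs_deriv_le_mul_abs_self_of_eq_zero_right (a := (0 : ℝ)) (b := 1)
    (K := ‖t‖ * L)
    (f := fun s : ℝ => ψ (((1 - s : ℝ) : ℂ) * t) - ψ t)
    (f' := fun s : ℝ => (-1 : ℝ) • (t • Z (ψ (((1 - s : ℝ) : ℂ) * t))))
    (fun s hs => (hder s hs).continuousAt.continuousWithinAt)
    (fun s hs => (hder s (Ico_subset_Icc_self hs)).hasDerivWithinAt)
    (by simp)
    (by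
      intro s hs
      have hs' := Ico_subset_Icc_self hs
      have h1 := hLip _ (hψ _ (hmem s hs')).2 _ (hψ t ht).2
      rw [hcon, sub_zero] at h1
      rw [norm_smul, norm_smul, norm_neg, norm_one, one_mul, mul_assoc]
      exact mul_le_mul_of_nonneg_left h1 (norm_nonneg _))
  have h1 := key 1 (right_mem_Icc.2 zero_le_one)
  simp only [sub_self, Complex.ofReal_zero, zero_mul] at h1
  rw [sub_eq_zero] at h1
  exact h0 (by rw [h1]; exact hcon)


end Pool.Agent.Helper529.Wf
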