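import Pool.Agent.Helper529.Wf.W0

set_option autoImplicit false

open Set Metric Filter Topology MeasureTheory
open scoped Manifold ComplexConjugate NNReal
open Pool.Agent.Helper240.Nev Pool.Agent.Helper684.Ergo

namespace Pool.Agent.Helper529.Wf


/-- the coordinate change is real smooth -/
theorem contDiffOn_real_of_charts {E M : Type*} [NormedAddCommGroup E] [NormedSpace ℂ E]
    [TopologicalSpace M] [ChartedSpace E M] [IsManifold 𝓘(ℂ, E) 1 M] [CompleteSpace E]
    {e e' : OpenPartialHomeomorph M E}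
    (he : e ∈ IsManifold.maximalAtlas 𝓘(ℂ, E) 1 M)
    (he' : e' ∈ IsManifold.maximalAtlas 𝓘(ℂ, E) 1 M) [FiniteDimensional ℂ E] :
    ContDiffOn ℝ ((⊤ : ℕ∞) : WithTop ℕ∞) (e.symm.trans e') (e.symm.trans e').source := by
  refine contDiffOn_real_of_differentiableOn (e.symm.trans e').open_source ?_
  intro y hy
  have hy' : y ∈ e.target ∧ e.symm y ∈ e'.source := by simpa using hy
  have h1 : MDifferentiableAt 𝓘(ℂ, E) 𝓘(ℂ, E) e.symm y := chart_symm_mdiff he hy'.1
  have h2 : MDifferentiableAt 𝓘(ℂ, E) 𝓘(ℂ, E) e' (e.symm y) := chart_mdiff ⟨he', hy'.2⟩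
  exact (mdifferentiableAt_iff_differentiableAt.1 (h2.comp y h1)).differentiableWithinAt

end Pool.Agent.Helper529.Wf
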