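import Pool.Agent.Helper529.Wf.L1
import Pool.Agent.Helper529.Wf.Holo
set_option autoImplicit false

open Set Metric Filter Topology MeasureTheory
open scoped Manifold ComplexConjugate NNReal
open Pool.Agent.Helper240.Nev Pool.Agent.Helper684.Ergo

namespace Pool.Agent.Helper529.Wf


end Pool.Agent.Helper529.Wf
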