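import Pool.Agent.Helper529.Wf.M1

set_option autoImplicit false

open Set Metric Filter Topology MeasureTheory
open scoped Manifold ComplexConjugate NNReal
open Pool.Agent.Helper240.Nev Pool.Agent.Helper684.Ergo

namespace Pool.Agent.Helper529.Wf


variable {E M : Type*} [NormedAddCommGroup E] [NormedSpace ℂ E] [TopologicalSpace M]
  [ChartedSpace E M] [IsManifold 𝓘(ℂ, E) 1 M] [FiniteDimensional ℂ E] [T2Space M] [CompactSpace M]
  {SF : SingularFoliation E M}


theorem exists_cover (SF : SingularFoliation E M) : Nonempty (Cover SF) := by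
  classical
  have : FiniteDimensional ℝ E := FiniteDimensional.complexToReal E
  have : ProperSpace E := FiniteDimensional.proper ℝ E
  choose G hG hx using SF.cover
  have hr : ∀ x : M, ∃ r : ℝ, 0 < r ∧ closedBall ((G x).e x) r ⊆ (G x).e.target := fun x =>
    Metric.nhds_basis_closedBall.mem_iff.1
      ((G x).e.open_target.mem_nhds ((G x).e.map_source (hx x)))
  choose r hr0 hr using hr
  let f : ∀ x : M, ContDiffBump ((G x).e x) := fun x =>
    ⟨r x / 2, r x, half_pos (hr0 x), half_lt_self (hr0 x)⟩
  let U : M → Set M := fun x => (G x).e.source ∩ (G x).e ⁻¹' (ball ((G x).e x) (r x))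
  have hU : ∀ x, IsOpen (U x) := fun x => (G x).e.isOpen_inter_preimage isOpen_ball
  have hxU : ∀ x, x ∈ U x := fun x => ⟨hx x, mem_ball_self (hr0 x)⟩
  obtain ⟨t, ht⟩ := isCompact_univ.elim_finite_subcover U hU
    (fun x _ => mem_iUnion.2 ⟨x, hxU x⟩)
  refine ⟨{ n := t.card
            G := fun j => G (t.equivFin.symm j)
            mem := fun j => hG _
            b := fun j => f (t.equivFin.symm j)
            smooth := fun j => (f (t.equivFin.symm j)).contDiff
            nonneg := fun j y => (f (t.equivFin.symm j)).nonneg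
            cpt := fun j => (f (t.equivFin.symm j)).hasCompactSupport
            supp := fun j => ?_
            pos := fun x => ?_ }⟩
  · rw [(f (t.equivFin.symm j)).tsupport_eq]
    exact hr _
  · have hxt := ht (mem_univ x)
    rw [mem_iUnion₂] at hxt
    obtain ⟨y, hy, hxy⟩ := hxt
    refine ⟨t.equivFin ⟨y, hy⟩, ?_, ?_⟩
    · simpa using hxy.1
    · have h1 : t.equivFin.symm (t.equivFin ⟨y, hy⟩) = ⟨y, hy⟩ := by simp
      rw [h1]
      exact (f y).pos_of_mem_ball hxy.2


end Pool.Agent.Helper529.Wf
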