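import Pool.Agent.Helper529.Wf.W9

set_option autoImplicit false

open Set Metric Filter Topology MeasureTheory
open scoped Manifold ComplexConjugate NNReal
open Pool.Agent.Helper240.Nev Pool.Agent.Helper684.Ergo

namespace Pool.Agent.Helper529.Wf


variable {E M : Type*} [NormedAddCommGroup E] [NormedSpace ℂ E] [TopologicalSpace M]
  [ChartedSpace E M] [IsManifold 𝓘(ℂ, E) 1 M] [FiniteDimensional ℂ E] [T2Space M] [CompactSpace M]
  {SF : SingularFoliation E M}


/-- measurability -/
theorem measurable_W (C : Cover SF) [MeasurableSpace M] [BorelSpace M] (Φ : M → ℂ → M)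
    (hΦ : Measurable (fun p : M × ℂ => Φ p.1 p.2)) : ∃ W : M → ℝ, Measurable W ∧
      ∀ x, SF.toFoliation.IsUniversalCovering (Φ x) → Φ x 0 = x →
        W x = Real.log (Nn C (Φ x) 0) := by
  classical
  letI : MeasurableSpace E := borel E
  have hBE : BorelSpace E := ⟨rfl⟩
  have hPE : ProperSpace E := FiniteDimensional.proper ℂ E
  let eh : Fin C.n → M → E := fun j =>
    ((C.G j).e.source).piecewise (C.G j).e (fun _ => (0 : E))
  let bh : Fin C.n → M → ℝ := fun j =>
    ((C.G j).e.source).piecewise (fun x => C.b j ((C.G j).e x)) (fun _ => (0 : ℝ))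
  let zh : Fin C.n → M → ℝ := fun j =>
    ((C.G j).e.source).piecewise (fun x => ‖(C.G j).Z ((C.G j).e x)‖ ^ 2) (fun _ => (0 : ℝ))
  have heh : ∀ j, Measurable (eh j) := fun j =>
    ContinuousOn.measurable_piecewise (C.G j).e.continuousOn continuousOn_const
      (C.G j).e.open_source.measurableSet
  have hbh : ∀ j, Measurable (bh j) := fun j =>
    ContinuousOn.measurable_piecewise
      ((C.smooth j).continuous.comp_continuousOn (C.G j).e.continuousOn) continuousOn_const
      (C.G j).e.open_source.measurableSet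
  have hzh : ∀ j, Measurable (zh j) := fun j =>
    ContinuousOn.measurable_piecewise
      ((((C.G j).hol.continuousOn).comp (C.G j).e.continuousOn
        (fun x hx => (C.G j).e.map_source hx)).norm.pow 2) continuousOn_const
      (C.G j).e.open_source.measurableSet
  have hΦz : ∀ z : ℂ, Measurable fun x => Φ x z := fun z =>
    hΦ.comp (measurable_id.prodMk measurable_const)
  let t : Fin C.n → ℕ → M → ℝ := fun j k x =>
    bh j x * ‖((k : ℂ) + 1) • (eh j (Φ x (1 / ((k : ℂ) + 1))) - eh j x)‖ ^ 2 / zh j x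
  have ht : ∀ j k, Measurable (t j k) := fun j k =>
    ((hbh j).mul (((((heh j).comp (hΦz _)).sub (heh j)).const_smul
      ((k : ℂ) + 1)).norm.pow_const 2)).div (hzh j)
  let T : Fin C.n → M → ENNReal := fun j x => limsup (fun k => ENNReal.ofReal (t j k x)) atTop
  have hT : ∀ j, Measurable (T j) := fun j =>
    Measurable.limsup fun k => (ht j k).ennreal_ofReal
  refine ⟨fun x => Real.log (∑ j, (T j x).toReal),
    (Finset.measurable_sum _ fun j _ => (hT j).ennreal_toReal).log, fun x hx hx0 => ?_⟩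
  show Real.log (∑ j, (T j x).toReal) = Real.log (Nn C (Φ x) 0)
  congr 1
  unfold Nn
  refine Finset.sum_congr rfl fun j _ => ?_
  set r : ℝ := (if Φ x 0 ∈ (C.G j).e.source then
    C.b j ((C.G j).e (Φ x 0)) * ‖deriv (fun t => (C.G j).e (Φ x t)) 0‖ ^ 2 /
      ‖(C.G j).Z ((C.G j).e (Φ x 0))‖ ^ 2 else 0) with hr
  have hr0 : 0 ≤ r := by
    rw [hr]
    split_ifs
    · exact div_nonneg (mul_nonneg (C.nonneg j _) (by positivity)) (by positivity)
    · exact le_rfl
  have hlim : Tendsto (fun k => t j k x) atTop (𝓝 r) := by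
    by_cases hs : x ∈ (C.G j).e.source
    · have hs' : Φ x 0 ∈ (C.G j).e.source := by rw [hx0]; exact hs
      have h0 : (0 : ℂ) ∈ ball (0 : ℂ) 1 := mem_ball_self one_pos
      have hmd := hx.tangent.mdiffAt h0
      have hd : HasDerivAt (fun z => (C.G j).e (Φ x z))
          (deriv (fun z => (C.G j).e (Φ x z)) 0) 0 :=
        (hasDerivAt_chart hmd ⟨(C.G j).mem, hs'⟩).differentiableAt.hasDerivAt
      have ha0 : Tendsto (fun k : ℕ => 1 / ((k : ℂ) + 1)) atTop (𝓝 0) :=
        tendsto_one_div_add_atTop_nhds_zero_nat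
      have hane : ∀ k : ℕ, (1 : ℂ) / ((k : ℂ) + 1) ≠ 0 := fun k =>
        one_div_ne_zero (Nat.cast_add_one_ne_zero k)
      have ha : Tendsto (fun k : ℕ => 1 / ((k : ℂ) + 1)) atTop (𝓝[≠] 0) :=
        tendsto_nhdsWithin_iff.2 ⟨ha0, Eventually.of_forall hane⟩
      have h1 := (hasDerivAt_iff_tendsto_slope_zero.1 hd).comp ha
      have hev : ∀ᶠ k : ℕ in atTop, Φ x (1 / ((k : ℂ) + 1)) ∈ (C.G j).e.source := by
        have hc : ContinuousAt (Φ x) 0 := hmd.continuousAt
        exact ha0.eventually (hc.preimage_mem_nhds ((C.G j).e.open_source.mem_nhds hs'))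
      have h2 : Tendsto (fun k : ℕ =>
          ((k : ℂ) + 1) • (eh j (Φ x (1 / ((k : ℂ) + 1))) - eh j x)) atTop
          (𝓝 (deriv (fun z => (C.G j).e (Φ x z)) 0)) := by
        refine h1.congr' ?_
        filter_upwards [hev] with k hk
        have e1 : eh j (Φ x (1 / ((k : ℂ) + 1))) = (C.G j).e (Φ x (1 / ((k : ℂ) + 1))) :=
          Set.piecewise_eq_of_mem _ _ _ hk
        have e2 : eh j x = (C.G j).e x := Set.piecewise_eq_of_mem _ _ _ hs
        rw [e1, e2]
        simp only [Function.comp_apply, zero_add, hx0]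
        rw [one_div, inv_inv]
      have e3 : bh j x = C.b j ((C.G j).e (Φ x 0)) := by
        rw [hx0]; exact Set.piecewise_eq_of_mem _ _ _ hs
      have e4 : zh j x = ‖(C.G j).Z ((C.G j).e (Φ x 0))‖ ^ 2 := by
        rw [hx0]; exact Set.piecewise_eq_of_mem _ _ _ hs
      rw [hr, if_pos hs', ← e3, ← e4]
      exact ((h2.norm.pow 2).const_mul (bh j x)).div_const (zh j x)
    · have hs' : Φ x 0 ∉ (C.G j).e.source := by rw [hx0]; exact hs
      have e3 : bh j x = 0 := Set.piecewise_eq_of_notMem _ _ _ hs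
      rw [hr, if_neg hs']
      have : (fun k => t j k x) = fun _ => (0 : ℝ) := by
        funext k
        show bh j x * _ / zh j x = 0
        rw [e3, zero_mul, zero_div]
      rw [this]
      exact tendsto_const_nhds
  have hTl : T j x = ENNReal.ofReal r :=
    ((ENNReal.continuous_ofReal.tendsto r).comp hlim).limsup_eq
  rw [hTl, ENNReal.toReal_ofReal hr0]


end Pool.Agent.Helper529.Wf
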