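import Pool.Agent.Helper529.Wf.W10

set_option autoImplicit false

open Set Metric Filter Topology MeasureTheory
open scoped Manifold ComplexConjugate NNReal
open Pool.Agent.Helper240.Nev Pool.Agent.Helper684.Ergo

namespace Pool.Agent.Helper529.Wf


variable {E M : Type*} [NormedAddCommGroup E] [NormedSpace ℂ E] [TopologicalSpace M]
  [ChartedSpace E M] [IsManifold 𝓘(ℂ, E) 1 M] [FiniteDimensional ℂ E] [T2Space M] [CompactSpace M]
  {SF : SingularFoliation E M}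


namespace WAux

/-- smoothness of the second term -/
theorem contDiffAt_second {z : ℂ} (hz : z ∈ ball (0 : ℂ) 1) :
    ContDiffAt ℝ 2 (fun z : ℂ => Real.log ((1 - ‖z‖ ^ 2) ^ 2)) z := by
  have hz1 : ‖z‖ < 1 := by simpa using hz
  have hpos : 0 < 1 - ‖z‖ ^ 2 := by nlinarith [norm_nonneg z]
  have h1 : ContDiffAt ℝ 2 (fun z : ℂ => ‖z‖ ^ 2) z := (contDiff_norm_sq ℝ).contDiffAt
  have h2 : ContDiffAt ℝ 2 (fun z : ℂ => (1 - ‖z‖ ^ 2) ^ 2) z :=
    (contDiffAt_const.sub h1).pow 2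
  exact h2.log (by positivity)

/-- the second term is stationary at the centre -/
theorem fderiv_second : fderiv ℝ (fun z : ℂ => Real.log ((1 - ‖z‖ ^ 2) ^ 2)) 0 = 0 := by
  have hmax : IsLocalMax (fun z : ℂ => Real.log ((1 - ‖z‖ ^ 2) ^ 2)) 0 := by
    have : ∀ᶠ z in 𝓝 (0 : ℂ), z ∈ ball (0 : ℂ) 1 := ball_mem_nhds _ one_pos
    filter_upwards [this] with z hz
    have hz1 : ‖z‖ < 1 := by simpa using hz
    have hpos : 0 < 1 - ‖z‖ ^ 2 := by nlinarith [norm_nonneg z]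
    apply Real.log_le_log (by positivity)
    simp only [norm_zero]
    nlinarith [norm_nonneg z, sq_nonneg ‖z‖]
  exact hmax.fderiv_eq_zero

end WAux

open WAux

/-- **The barrier function of a singular foliation.** -/
theorem exists_W [MeasurableSpace M] [BorelSpace M] (SF : SingularFoliation E M)
    (ω : PosForm E M) (Φ : M → ℂ → M) (hΦ : Measurable (fun p : M × ℂ => Φ p.1 p.2))
    (hcov : ∀ x, IsHyperbolic SF.toFoliation x →
      SF.toFoliation.IsUniversalCovering (Φ x) ∧ Φ x 0 = x) :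
    ∃ W : M → ℝ, Measurable W ∧ (∃ c, ∀ x, IsHyperbolic SF.toFoliation x → c ≤ W x) ∧
      (∀ n : ℝ, ∃ K, IsCompact K ∧ Disjoint K SF.sing ∧
        ∀ x, IsHyperbolic SF.toFoliation x → W x ≤ n → x ∈ K) ∧
      (∃ C, ∀ φ, SF.toFoliation.IsUniversalCovering φ →
        ContDiffOn ℝ 2 (fun z => W (φ z)) (ball 0 1) ∧
          |lap (fun z => W (φ z)) 0 + 8| ≤ C * pullback ω φ 0) ∧
      (∀ n : ℝ, ∃ C, ∀ φ, SF.toFoliation.IsUniversalCovering φ → W (φ 0) ≤ n →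
        ‖fderiv ℝ (fun z => W (φ z)) 0‖ ^ 2 ≤ C * pullback ω φ 0 ∧
          1 ≤ C * pullback ω φ 0) := by
  obtain ⟨C⟩ := exists_cover SF
  obtain ⟨W, hWm, hW⟩ := measurable_W C Φ hΦ
  -- value of `W` along a universal covering
  have hval : ∀ φ : ℂ → M, SF.toFoliation.IsUniversalCovering φ → ∀ ξ ∈ ball (0 : ℂ) 1,
      W (φ ξ) = Real.log (Nn C φ ξ) + Real.log ((1 - ‖ξ‖ ^ 2) ^ 2) := by
    intro φ hφ ξ hξ
    have hhyp : IsHyperbolic SF.toFoliation (φ ξ) :=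
      ⟨fun z => φ (mob ξ z), universalCovering_mob hφ hξ, by simp [mob]⟩
    obtain ⟨h1, h2⟩ := hcov _ hhyp
    rw [hW _ h1 h2, Nn_base C hφ h1 hξ h2]
    have hξ1 : ‖ξ‖ < 1 := by simpa using hξ
    have hpos : 0 < 1 - ‖ξ‖ ^ 2 := by nlinarith [norm_nonneg ξ]
    exact Real.log_mul (Nn_pos C hφ.tangent hξ (hφ.immersion ξ hξ)).ne' (by positivity)
  have h0 : (0 : ℂ) ∈ ball (0 : ℂ) 1 := mem_ball_self one_pos
  have hval0 : ∀ φ : ℂ → M, SF.toFoliation.IsUniversalCovering φ →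
      W (φ 0) = Real.log (Nn C φ 0) := by
    intro φ hφ
    rw [hval φ hφ 0 h0]
    simp
  have hpos0 : ∀ φ : ℂ → M, SF.toFoliation.IsUniversalCovering φ → 0 < Nn C φ 0 :=
    fun φ hφ => Nn_pos C hφ.tangent h0 (hφ.immersion 0 h0)
  have hexp : ∀ (n : ℝ) (φ : ℂ → M), SF.toFoliation.IsUniversalCovering φ → W (φ 0) ≤ n →
      Nn C φ 0 ≤ Real.exp n := by
    intro n φ hφ hn
    rw [hval0 φ hφ] at hn
    exact (Real.log_le_iff_le_exp (hpos0 φ hφ)).1 hn
  have heq : ∀ φ : ℂ → M, SF.toFoliation.IsUniversalCovering φ → ∀ z ∈ ball (0 : ℂ) 1,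
      (fun z => W (φ z)) =ᶠ[𝓝 z]
        fun z => Real.log (Nn C φ z) + Real.log ((1 - ‖z‖ ^ 2) ^ 2) := by
    intro φ hφ z hz
    filter_upwards [isOpen_ball.mem_nhds hz] with t ht
    exact hval φ hφ t ht
  obtain ⟨c0, hc0, hlow⟩ := Nn_lower C
  obtain ⟨K, hK⟩ := lap_log_Nn C ω
  refine ⟨W, hWm, ⟨Real.log c0, ?_⟩, ?_, ⟨K, ?_⟩, ?_⟩
  · rintro x ⟨φ, hφ, rfl⟩
    rw [hval0 φ hφ]
    exact Real.log_le_log hc0 (hlow φ hφ)
  · intro n
    obtain ⟨Kc, hKc, hd, hp⟩ := Nn_proper C (Real.exp n)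
    refine ⟨Kc, hKc, hd, ?_⟩
    rintro x ⟨φ, hφ, rfl⟩ hn
    exact hp φ hφ (hexp n φ hφ hn)
  · intro φ hφ
    refine ⟨fun z hz => ?_, ?_⟩
    · have h1 := (hK φ hφ.tangent z hz (hφ.immersion z hz)).1
      exact ((h1.add (contDiffAt_second hz)).congr_of_eventuallyEq
        (heq φ hφ z hz)).contDiffWithinAt
    · have h1 := hK φ hφ.tangent 0 h0 (hφ.immersion 0 h0)
      rw [lap_congr (heq φ hφ 0 h0), lap_add h1.1 (contDiffAt_second h0), lap_log_one_sub]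
      simpa using h1.2
  · intro n
    obtain ⟨Kc, hKc, hd, hp⟩ := Nn_proper C (Real.exp n)
    obtain ⟨c1, hc1, hpb⟩ := Nn_le_pullback C ω hKc hd
    obtain ⟨A, hA⟩ := grad_log_Nn C (Real.exp n)
    refine ⟨max (A ^ 2) 1 / (c1 * c0), ?_⟩
    intro φ hφ hn
    have hN := hexp n φ hφ hn
    have hmem := hp φ hφ hN
    have hge : c1 * c0 ≤ pullback ω φ 0 :=
      (mul_le_mul_of_nonneg_left (hlow φ hφ) hc1.le).trans (hpb φ hφ.tangent hmem)
    have hcc : 0 < c1 * c0 := mul_pos hc1 hc0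
    have hgrad : fderiv ℝ (fun z => W (φ z)) 0 = fderiv ℝ (fun z => Real.log (Nn C φ z)) 0 := by
      rw [(heq φ hφ 0 h0).fderiv_eq]
      have h1 := (hK φ hφ.tangent 0 h0 (hφ.immersion 0 h0)).1
      have h3 := fderiv_fun_add (h1.differentiableAt (by norm_num))
        ((contDiffAt_second h0).differentiableAt (by norm_num))
      rw [h3, fderiv_second, add_zero]
    have hmax : max (A ^ 2) 1 ≤ max (A ^ 2) 1 / (c1 * c0) * pullback ω φ 0 := by
      rw [div_mul_eq_mul_div, le_div_iff₀ hcc]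
      exact mul_le_mul_of_nonneg_left hge (by positivity)
    refine ⟨?_, (le_max_right _ _).trans hmax⟩
    rw [hgrad]
    refine le_trans ?_ ((le_max_left _ _).trans hmax)
    have h4 := hA φ hφ hN
    exact pow_le_pow_left₀ (norm_nonneg _) h4 2


end Pool.Agent.Helper529.Wf
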