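import Pool.Agent.Helper529.Wf.W5

set_option autoImplicit false

open Set Metric Filter Topology MeasureTheory
open scoped Manifold ComplexConjugate NNReal
open Pool.Agent.Helper240.Nev Pool.Agent.Helper684.Ergo

namespace Pool.Agent.Helper529.Wf


variable {E M : Type*} [NormedAddCommGroup E] [NormedSpace ℂ E] [TopologicalSpace M]
  [ChartedSpace E M] [IsManifold 𝓘(ℂ, E) 1 M] [FiniteDimensional ℂ E] [T2Space M] [CompactSpace M]
  {SF : SingularFoliation E M}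

/-- discs of flow: property of a neighbourhood `V` of `p` -/
def FlowNhd (SF : SingularFoliation E M) (G : Generator SF.toFoliation) (p : M) (R ρ : ℝ)
    (V : Set M) : Prop :=
  ∀ x ∈ V, x ∉ SF.sing → ∃ ψ : ℂ → M, SF.toFoliation.IsTangentDisc ψ ∧ ψ 0 = x ∧
    ∀ t ∈ ball (0 : ℂ) 1, ψ t ∈ G.e.source ∧ G.e (ψ t) ∈ closedBall (G.e p) R ∧
      HasDerivAt (fun t => G.e (ψ t)) ((ρ : ℂ) • G.Z (G.e (ψ t))) t



omit [IsManifold 𝓘(ℂ, E) 1 M] [T2Space M] [CompactSpace M] in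
theorem w6_lip (G : Generator SF.toFoliation) {p : M} {R : ℝ}
    (hRt : closedBall (G.e p) R ⊆ G.e.target) :
    ∃ L : ℝ, 0 < L ∧ ∀ x ∈ ball (G.e p) R, ∀ y ∈ ball (G.e p) R,
      ‖G.Z x - G.Z y‖ ≤ L * ‖x - y‖ := by
  haveI : CompleteSpace E := FiniteDimensional.complete ℂ E
  haveI : ProperSpace E := FiniteDimensional.proper ℂ E
  have h1 : ContDiffOn ℝ ((⊤ : ℕ∞) : WithTop ℕ∞) G.Z G.e.target :=
    contDiffOn_real_of_differentiableOn G.e.open_target G.hol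
  have h2 : ContinuousOn (fderiv ℝ G.Z) G.e.target :=
    h1.continuousOn_fderiv_of_isOpen G.e.open_target (by exact_mod_cast le_top)
  have h3 : ContinuousOn (fun x => ‖fderiv ℝ G.Z x‖) (closedBall (G.e p) R) :=
    (h2.mono hRt).norm
  obtain ⟨C, hC⟩ := (isCompact_closedBall (G.e p) R).bddAbove_image h3
  refine ⟨max C 1, lt_of_lt_of_le one_pos (le_max_right _ _), ?_⟩
  intro x hx y hy
  have hd : ∀ x ∈ ball (G.e p) R, DifferentiableAt ℝ G.Z x := by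
    intro x hx
    have hx' : x ∈ G.e.target := hRt (ball_subset_closedBall hx)
    exact (h1.contDiffAt (G.e.open_target.mem_nhds hx')).differentiableAt (by simp)
  exact (convex_ball (G.e p) R).norm_image_sub_le_of_norm_fderiv_le (𝕜 := ℝ) hd (fun x hx =>
    (hC ⟨x, ball_subset_closedBall hx, rfl⟩).trans (le_max_left _ _)) hy hx

omit [T2Space M] [CompactSpace M] in
theorem w6_main (G : Generator SF.toFoliation) {p : M} (hp : p ∈ G.e.source) {R : ℝ}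
    (hR : 0 < R) (hRt : closedBall (G.e p) R ⊆ G.e.target) {L : ℝ} (hL : 0 < L)
    (hLip : ∀ x ∈ ball (G.e p) R, ∀ y ∈ ball (G.e p) R, ‖G.Z x - G.Z y‖ ≤ L * ‖x - y‖)
    {ρ : ℝ} (hρ : 0 < ρ) (hA : ‖G.Z (G.e p)‖ / L * (Real.exp (L * ρ) - 1) < R / 2) :
    ∃ V ∈ 𝓝 p, FlowNhd SF G p R ρ V := by
  haveI : CompleteSpace E := FiniteDimensional.complete ℂ E
  refine ⟨G.e.source ∩ {x | ‖G.e x - G.e p‖ * Real.exp (L * ρ) < R / 2}, ?_, ?_⟩
  · apply Filter.inter_mem (G.e.open_source.mem_nhds hp)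
    have hc : ContinuousAt (fun x => ‖G.e x - G.e p‖ * Real.exp (L * ρ)) p := by
      have h1 := G.e.continuousAt hp
      exact ((h1.sub continuousAt_const).norm).mul continuousAt_const
    have h2 : ‖G.e p - G.e p‖ * Real.exp (L * ρ) < R / 2 := by
      rw [sub_self, norm_zero, zero_mul]; positivity
    exact hc.eventually_lt continuousAt_const h2
  · rintro x ⟨hx, hx2⟩ hxs
    have hx2 : ‖G.e x - G.e p‖ * Real.exp (L * ρ) < R / 2 := hx2
    have hsubset : ball (G.e p) R ⊆ G.e.target := ball_subset_closedBall.trans hRt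
    obtain ⟨ψ₀, hψ0, hψ⟩ := exists_flow_disc (y₀ := G.e x) hR (G.hol.mono hsubset) hL
      (norm_nonneg (G.Z (G.e p))) hLip le_rfl hρ (by
        have e1 : (‖G.e x - G.e p‖ + ‖G.Z (G.e p)‖ / L) * Real.exp (L * ρ) -
            ‖G.Z (G.e p)‖ / L = ‖G.e x - G.e p‖ * Real.exp (L * ρ) +
            ‖G.Z (G.e p)‖ / L * (Real.exp (L * ρ) - 1) := by ring
        rw [e1]; linarith)
    have hZ0 : G.Z (ψ₀ 0) ≠ 0 := by
      rw [hψ0]
      intro h
      exact hxs (((G.gen x hx).1).mpr h)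
    have hne := flow_ne_zero hL hLip hψ hZ0
    have hmem : ∀ t ∈ ball (0 : ℂ) 1, (ρ : ℂ) * t ∈ ball (0 : ℂ) ρ := by
      intro t ht
      rw [mem_ball_zero_iff] at ht ⊢
      rw [norm_mul, Complex.norm_real, Real.norm_eq_abs, abs_of_pos hρ]
      nlinarith
    have hz : ∀ t ∈ ball (0 : ℂ) 1, HasDerivAt (fun t => ψ₀ ((ρ : ℂ) * t))
        ((ρ : ℂ) • G.Z (ψ₀ ((ρ : ℂ) * t))) t := by
      intro t ht
      have h1 := (hψ _ (hmem t ht)).1
      have h2 : HasDerivAt (fun t : ℂ => (ρ : ℂ) * t) (ρ : ℂ) t := by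
        simpa using (hasDerivAt_id t).const_mul (ρ : ℂ)
      exact h1.scomp t h2
    have htar : ∀ t ∈ ball (0 : ℂ) 1, ψ₀ ((ρ : ℂ) * t) ∈ G.e.target := fun t ht =>
      hsubset (hψ _ (hmem t ht)).2
    have hdisc := isTangentDisc_of_curve G.mem G.gen hz htar (fun t ht => hne _ (hmem t ht))
    refine ⟨fun t => G.e.symm (ψ₀ ((ρ : ℂ) * t)), hdisc, ?_, ?_⟩
    · show G.e.symm (ψ₀ ((ρ : ℂ) * 0)) = x
      rw [mul_zero, hψ0, G.e.left_inv hx]
    · intro t ht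
      have hr : ∀ t ∈ ball (0 : ℂ) 1, G.e (G.e.symm (ψ₀ ((ρ : ℂ) * t))) = ψ₀ ((ρ : ℂ) * t) :=
        fun t ht => G.e.right_inv (htar t ht)
      refine ⟨G.e.map_target (htar t ht), ?_, ?_⟩
      · show G.e (G.e.symm (ψ₀ ((ρ : ℂ) * t))) ∈ closedBall (G.e p) R
        rw [hr t ht]
        exact ball_subset_closedBall (hψ _ (hmem t ht)).2
      · show HasDerivAt (fun t => G.e (G.e.symm (ψ₀ ((ρ : ℂ) * t))))
          ((ρ : ℂ) • G.Z (G.e (G.e.symm (ψ₀ ((ρ : ℂ) * t))))) t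
        rw [hr t ht]
        refine (hz t ht).congr_of_eventuallyEq ?_
        filter_upwards [isOpen_ball.mem_nhds ht] with s hs
        exact hr s hs

theorem exists_flowNhd (G : Generator SF.toFoliation) {p : M} (hp : p ∈ G.e.source) {R : ℝ}
    (hR : 0 < R) (hRt : closedBall (G.e p) R ⊆ G.e.target) :
    (∃ ρ : ℝ, 0 < ρ ∧ ∃ V ∈ 𝓝 p, FlowNhd SF G p R ρ V) ∧
      (p ∈ SF.sing → ∀ ρ : ℝ, 0 < ρ → ∃ V ∈ 𝓝 p, FlowNhd SF G p R ρ V) := by
  obtain ⟨L, hL, hLip⟩ := w6_lip G hRt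
  refine ⟨?_, ?_⟩
  · have hc : Continuous (fun ρ : ℝ => ‖G.Z (G.e p)‖ / L * (Real.exp (L * ρ) - 1)) := by
      fun_prop
    have h1 : ∀ᶠ ρ in 𝓝 (0 : ℝ), ‖G.Z (G.e p)‖ / L * (Real.exp (L * ρ) - 1) < R / 2 := by
      apply hc.continuousAt.eventually_lt continuousAt_const
      simp
      exact hR
    have h2 : ∀ᶠ ρ in 𝓝[>] (0 : ℝ), ‖G.Z (G.e p)‖ / L * (Real.exp (L * ρ) - 1) < R / 2 :=
      h1.filter_mono nhdsWithin_le_nhds
    obtain ⟨ρ, hρ1, hρ2⟩ := (h2.and self_mem_nhdsWithin).exists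
    exact ⟨ρ, hρ2, w6_main G hp hR hRt hL hLip hρ2 hρ1⟩
  · intro hps ρ hρ
    refine w6_main G hp hR hRt hL hLip hρ ?_
    have h1 : G.Z (G.e p) = 0 := ((G.gen p hp).1).mp hps
    rw [h1, norm_zero, zero_div, zero_mul]
    positivity


end Pool.Agent.Helper529.Wf
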