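import Pool.Agent.Helper529.Wf.W6

set_option autoImplicit false

open Set Metric Filter Topology MeasureTheory
open scoped Manifold ComplexConjugate NNReal
open Pool.Agent.Helper240.Nev Pool.Agent.Helper684.Ergo

namespace Pool.Agent.Helper529.Wf


variable {E M : Type*} [NormedAddCommGroup E] [NormedSpace ℂ E] [TopologicalSpace M]
  [ChartedSpace E M] [IsManifold 𝓘(ℂ, E) 1 M] [FiniteDimensional ℂ E] [T2Space M] [CompactSpace M]
  {SF : SingularFoliation E M}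


theorem flow_bound (C : Cover SF) (G : Generator SF.toFoliation) {S : E → ℝ}
    (hS : ∀ ψ : ℂ → M, SF.toFoliation.IsTangentDisc ψ → ∀ z ∈ ball (0 : ℂ) 1, ψ z ∈ G.e.source →
        ∀ a : ℂ, HasDerivAt (fun t => G.e (ψ t)) (a • G.Z (G.e (ψ z))) z →
          Nn C ψ z = ‖a‖ ^ 2 * S (G.e (ψ z)))
    {p : M} {R ρ s0 : ℝ} (hs0 : ∀ y ∈ closedBall (G.e p) R, s0 ≤ S y) {V : Set M}
    (hV : FlowNhd SF G p R ρ V) {φ : ℂ → M} (hφ : SF.toFoliation.IsUniversalCovering φ)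
    (h0 : φ 0 ∈ V) : ρ ^ 2 * s0 ≤ Nn C φ 0 := by
  have hmem : (0 : ℂ) ∈ ball (0 : ℂ) 1 := mem_ball_self one_pos
  have hreg : φ 0 ∉ SF.sing := (hφ.tangent.2 0 hmem).1
  obtain ⟨ψ, hψt, hψ0, hψ⟩ := hV (φ 0) h0 hreg
  obtain ⟨h1, h2, h3⟩ := hψ 0 hmem
  have h4 := hS ψ hψt 0 hmem h1 (ρ : ℂ) h3
  obtain ⟨f, -, -, hf0, -, hfd, hfN⟩ := Nn_schwarz C hφ hψt hψ0
  have h5 := hfN 0 hmem
  rw [hf0] at h5
  have hpos : 0 < Nn C φ 0 := Nn_pos C hφ.tangent hmem (hφ.immersion 0 hmem)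
  have h6 : ‖deriv f 0‖ ^ 2 ≤ 1 := by
    have := norm_nonneg (deriv f 0)
    nlinarith
  have h7 : Nn C ψ 0 ≤ Nn C φ 0 := by
    rw [h5]
    nlinarith
  refine le_trans ?_ h7
  rw [h4, Complex.norm_real, Real.norm_eq_abs, sq_abs]
  exact mul_le_mul_of_nonneg_left (hs0 _ h2) (sq_nonneg _)

theorem local_data (C : Cover SF) (p : M) : ∃ (G : Generator SF.toFoliation) (R s0 : ℝ) (S : E → ℝ),
    p ∈ G.e.source ∧ 0 < R ∧ closedBall (G.e p) R ⊆ G.e.target ∧ 0 < s0 ∧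
    (∀ y ∈ closedBall (G.e p) R, s0 ≤ S y) ∧
    (∀ ψ : ℂ → M, SF.toFoliation.IsTangentDisc ψ → ∀ z ∈ ball (0 : ℂ) 1, ψ z ∈ G.e.source →
        ∀ a : ℂ, HasDerivAt (fun t => G.e (ψ t)) (a • G.Z (G.e (ψ z))) z →
          Nn C ψ z = ‖a‖ ^ 2 * S (G.e (ψ z))) := by
  obtain ⟨G, hG, hp⟩ := SF.cover p
  obtain ⟨S, hSc, hSp, hS⟩ := local_formula C G hG
  have hnhds : G.e.target ∈ 𝓝 (G.e p) := G.e.open_target.mem_nhds (G.e.map_source hp)
  obtain ⟨R, hR, hRt⟩ := Metric.nhds_basis_closedBall.mem_iff.mp hnhds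
  haveI : ProperSpace E := FiniteDimensional.proper ℂ E
  have hcpt : IsCompact (closedBall (G.e p) R) := isCompact_closedBall _ _
  have hne : (closedBall (G.e p) R).Nonempty := ⟨G.e p, mem_closedBall_self hR.le⟩
  obtain ⟨y, hy, hmin⟩ := hcpt.exists_isMinOn hne (hSc.continuousOn.mono hRt)
  exact ⟨G, R, S y, S, hp, hR, hRt, hSp y (hRt hy), fun z hz => hmin hz, hS⟩

/-- the metric is bounded below -/
theorem Nn_lower (C : Cover SF) : ∃ c : ℝ, 0 < c ∧ ∀ φ : ℂ → M,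
    SF.toFoliation.IsUniversalCovering φ → c ≤ Nn C φ 0 := by
  have key : ∃ c : ℝ, 0 < c ∧ ∀ φ : ℂ → M,
      SF.toFoliation.IsUniversalCovering φ → φ 0 ∈ (univ : Set M) → c ≤ Nn C φ 0 := by
    refine IsCompact.induction_on (p := fun s : Set M => ∃ c : ℝ, 0 < c ∧ ∀ φ : ℂ → M,
      SF.toFoliation.IsUniversalCovering φ → φ 0 ∈ s → c ≤ Nn C φ 0) isCompact_univ ?_ ?_ ?_ ?_
    · exact ⟨1, one_pos, fun φ _ h => absurd h (notMem_empty _)⟩
    · rintro s t hst ⟨c, hc, h⟩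
      exact ⟨c, hc, fun φ hφ h0 => h φ hφ (hst h0)⟩
    · rintro s t ⟨c, hc, h⟩ ⟨c', hc', h'⟩
      refine ⟨min c c', lt_min hc hc', fun φ hφ h0 => ?_⟩
      rcases h0 with h0 | h0
      · exact (min_le_left _ _).trans (h φ hφ h0)
      · exact (min_le_right _ _).trans (h' φ hφ h0)
    · intro p _
      obtain ⟨G, R, s0, S, hp, hR, hRt, hs0, hsS, hS⟩ := local_data C p
      obtain ⟨⟨ρ, hρ, V, hV, hfl⟩, -⟩ := exists_flowNhd G hp hR hRt
      refine ⟨V, mem_nhdsWithin_of_mem_nhds hV, ρ ^ 2 * s0, by positivity, fun φ hφ h0 => ?_⟩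
      exact flow_bound C G hS hsS hfl hφ h0
  obtain ⟨c, hc, h⟩ := key
  exact ⟨c, hc, fun φ hφ => h φ hφ (mem_univ _)⟩

/-- the metric tends to infinity at the singular points -/
theorem Nn_proper (C : Cover SF) (K : ℝ) : ∃ Kc : Set M, IsCompact Kc ∧ Disjoint Kc SF.sing ∧
    ∀ φ : ℂ → M, SF.toFoliation.IsUniversalCovering φ → Nn C φ 0 ≤ K → φ 0 ∈ Kc := by
  have key : ∀ p ∈ SF.sing, ∃ V ∈ 𝓝 p, ∀ φ : ℂ → M, SF.toFoliation.IsUniversalCovering φ →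
      φ 0 ∈ V → K < Nn C φ 0 := by
    intro p hps
    obtain ⟨G, R, s0, S, hp, hR, hRt, hs0, hsS, hS⟩ := local_data C p
    obtain ⟨-, hsing⟩ := exists_flowNhd (SF := SF) G hp hR hRt
    obtain ⟨V, hV, hfl⟩ := hsing hps (1 + |K| / s0) (by positivity)
    refine ⟨V, hV, fun φ hφ h0 => ?_⟩
    have h1 := flow_bound C G hS hsS hfl hφ h0
    refine lt_of_lt_of_le ?_ h1
    have h2 : |K| / s0 * s0 = |K| := div_mul_cancel₀ _ hs0.ne'
    have h3 : 0 ≤ |K| / s0 := by positivity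
    have h4 : K ≤ |K| := le_abs_self K
    nlinarith [mul_nonneg h3 h3, mul_nonneg (mul_nonneg h3 h3) hs0.le]
  choose! V hV hVb using key
  refine ⟨(⋃ p ∈ SF.sing, interior (V p))ᶜ, ?_, ?_, ?_⟩
  · exact (isOpen_biUnion fun p _ => isOpen_interior).isClosed_compl.isCompact
  · rw [Set.disjoint_left]
    intro x hx hxs
    apply hx
    exact Set.mem_biUnion hxs (mem_interior_iff_mem_nhds.mpr (hV x hxs))
  · intro φ hφ hle hmem
    rw [Set.mem_iUnion₂] at hmem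
    obtain ⟨p, hp, hp2⟩ := hmem
    have := hVb p hp φ hφ (interior_subset hp2)
    linarith


end Pool.Agent.Helper529.Wf
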