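import Pool.Agent.Helper529.Wf.W7

set_option autoImplicit false

open Set Metric Filter Topology MeasureTheory
open scoped Manifold ComplexConjugate NNReal
open Pool.Agent.Helper240.Nev Pool.Agent.Helper684.Ergo

namespace Pool.Agent.Helper529.Wf


variable {E M : Type*} [NormedAddCommGroup E] [NormedSpace ℂ E] [TopologicalSpace M]
  [ChartedSpace E M] [IsManifold 𝓘(ℂ, E) 1 M] [FiniteDimensional ℂ E] [T2Space M] [CompactSpace M]
  {SF : SingularFoliation E M}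


theorem Nn_nonneg' (C : Cover SF) (ψ : ℂ → M) (z : ℂ) : 0 ≤ Nn C ψ z := by
  unfold Nn
  refine Finset.sum_nonneg fun j _ => ?_
  split_ifs with h
  · exact div_nonneg (mul_nonneg (C.nonneg j _) (by positivity)) (by positivity)
  · exact le_rfl

theorem Nn_le_pullback_local (C : Cover SF) (ω : PosForm E M) {p : M} (hp : p ∉ SF.sing) :
    ∃ V ∈ 𝓝 p, ∃ c : ℝ, 0 < c ∧ ∀ ψ : ℂ → M, SF.toFoliation.IsTangentDisc ψ →
      ψ 0 ∈ V → c * Nn C ψ 0 ≤ pullback ω ψ 0 := by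
  obtain ⟨G, hG, hpG⟩ := SF.cover p
  obtain ⟨S, hS2, hSpos, hSform⟩ := local_formula C G hG
  have hy0 : G.e p ∈ G.e.target := G.e.map_source hpG
  have hZ0 : G.Z (G.e p) ≠ 0 := fun h => hp (((G.gen p hpG).1).2 h)
  have htar : G.e.target ∈ 𝓝 (G.e p) := G.e.open_target.mem_nhds hy0
  have hZc : ContinuousAt G.Z (G.e p) := (G.hol.continuousOn).continuousAt htar
  have hSc : ContinuousAt S (G.e p) := (hS2.continuousOn).continuousAt htar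
  set z0 : ℝ := ‖G.Z (G.e p)‖ with hz0
  have hz0pos : 0 < z0 := norm_pos_iff.2 hZ0
  have h1 : ∀ᶠ y in 𝓝 (G.e p), z0 / 2 < ‖G.Z y‖ :=
    (hZc.norm).eventually (lt_mem_nhds (by show z0 / 2 < z0; linarith))
  have h2 : ∀ᶠ y in 𝓝 (G.e p), S y < S (G.e p) + 1 :=
    hSc.eventually (gt_mem_nhds (by linarith))
  have h3 : ∀ᶠ y in 𝓝 (G.e p), y ∈ G.e.target := htar
  obtain ⟨r, hr, hball⟩ := Metric.nhds_basis_closedBall.eventually_iff.1 ((h1.and h2).and h3)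
  have : ProperSpace E := FiniteDimensional.proper ℂ E
  obtain ⟨c0, hc0, hQ⟩ := exists_Qe_ge ω G.mem (isCompact_closedBall (G.e p) r)
    (fun y hy => (hball hy).2)
  have hS1 : 0 < S (G.e p) + 1 := by have := hSpos _ hy0; linarith
  refine ⟨G.e.source ∩ G.e ⁻¹' closedBall (G.e p) r, ?_, c0 * (z0 / 2) ^ 2 / (S (G.e p) + 1),
    by positivity, ?_⟩
  · refine Filter.inter_mem (G.e.open_source.mem_nhds hpG) ?_
    exact (G.e.continuousAt hpG).preimage_mem_nhds (closedBall_mem_nhds _ hr)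
  · intro ψ hψ hψ0
    have h00 : (0 : ℂ) ∈ ball (0 : ℂ) 1 := mem_ball_self one_pos
    have hchart : IsHolChartAt G.e (ψ 0) := ⟨G.mem, hψ0.1⟩
    obtain ⟨a, ha⟩ := hψ.exists_deriv G.gen h00 hchart
    have hN := hSform ψ hψ 0 h00 hψ0.1 a ha
    have hP := pullback_chart ω (hψ.mdiffAt h00) hchart
    rw [ha.deriv] at hP
    have hb := hball hψ0.2
    have hq := hQ (G.e (ψ 0)) hψ0.2 (a • G.Z (G.e (ψ 0)))
    rw [← hP] at hq
    refine le_trans ?_ hq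
    rw [hN, norm_smul]
    have hSle : S (G.e (ψ 0)) ≤ S (G.e p) + 1 := hb.1.2.le
    have hZle : z0 / 2 ≤ ‖G.Z (G.e (ψ 0))‖ := hb.1.1.le
    have hZle2 : (z0 / 2) ^ 2 ≤ ‖G.Z (G.e (ψ 0))‖ ^ 2 := by gcongr
    calc c0 * (z0 / 2) ^ 2 / (S (G.e p) + 1) * (‖a‖ ^ 2 * S (G.e (ψ 0)))
        ≤ c0 * (z0 / 2) ^ 2 / (S (G.e p) + 1) * (‖a‖ ^ 2 * (S (G.e p) + 1)) := by gcongr
      _ = c0 * (‖a‖ ^ 2 * (z0 / 2) ^ 2) := by field_simp
      _ ≤ c0 * (‖a‖ ^ 2 * ‖G.Z (G.e (ψ 0))‖ ^ 2) := by gcongr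
      _ = c0 * (‖a‖ * ‖G.Z (G.e (ψ 0))‖) ^ 2 := by ring

/-- comparison with `ω` on compact sets of regular points -/
theorem Nn_le_pullback (C : Cover SF) (ω : PosForm E M) {Kc : Set M} (hK : IsCompact Kc)
    (hd : Disjoint Kc SF.sing) : ∃ c : ℝ, 0 < c ∧ ∀ ψ : ℂ → M, SF.toFoliation.IsTangentDisc ψ →
      ψ 0 ∈ Kc → c * Nn C ψ 0 ≤ pullback ω ψ 0 := by
  refine hK.induction_on (p := fun s => ∃ c : ℝ, 0 < c ∧ ∀ ψ : ℂ → M,
    SF.toFoliation.IsTangentDisc ψ → ψ 0 ∈ s → c * Nn C ψ 0 ≤ pullback ω ψ 0) ?_ ?_ ?_ ?_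
  · exact ⟨1, one_pos, fun ψ _ h => absurd h (Set.notMem_empty _)⟩
  · rintro s t hst ⟨c, hc, h⟩
    exact ⟨c, hc, fun ψ hψ h0 => h ψ hψ (hst h0)⟩
  · rintro s t ⟨c, hc, h⟩ ⟨c', hc', h'⟩
    refine ⟨min c c', lt_min hc hc', fun ψ hψ h0 => ?_⟩
    rcases h0 with h0 | h0
    · exact (mul_le_mul_of_nonneg_right (min_le_left _ _) (Nn_nonneg' C ψ 0)).trans (h ψ hψ h0)
    · exact (mul_le_mul_of_nonneg_right (min_le_right _ _) (Nn_nonneg' C ψ 0)).trans (h' ψ hψ h0)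
  · intro p hp
    obtain ⟨V, hV, c, hc, h⟩ := Nn_le_pullback_local C ω (Set.disjoint_left.1 hd hp)
    exact ⟨V, mem_nhdsWithin_of_mem_nhds hV, c, hc, h⟩


end Pool.Agent.Helper529.Wf
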